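import Pool.Agent.MP_fcd29e_an.H11.CS

/-!
Linear algebra of the Lorentz space.
-/

set_option autoImplicit false

open Complex Set Filter Topology Metric Pool.Agent.MP_fcd29e_an.H11
open scoped ComplexConjugate

namespace Pool.Agent.MP_fcd29e_an.H23

noncomputable section

variable {ι : Type} [Fintype ι]

theorem B_comm (u v : V ι) : B u v = B v u := by
  unfold B
  rw [mul_comm u.1]
  congr 2
  exact Finset.sum_congr rfl fun k _ => by ring

theorem B_add (u v w : V ι) : B (u + v) w = B u w + B v w := (Bl w).map_add u v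

theorem B_smul (a : ℂ) (u w : V ι) : B (a • u) w = a * B u w := (Bl w).map_smul a u

theorem B_add' (u v w : V ι) : B w (u + v) = B w u + B w v := by
  rw [B_comm, B_add, B_comm u, B_comm v]

theorem B_smul' (a : ℂ) (u w : V ι) : B w (a • u) = a * B w u := by
  rw [B_comm, B_smul, B_comm u]

theorem B_neg (u w : V ι) : B (-u) w = -B u w := (Bl w).map_neg u

theorem B_zero (w : V ι) : B 0 w = 0 := (Bl w).map_zero

theorem B_cj (u v : V ι) : B (cj u) (cj v) = conj (B u v) := by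
  simp only [B, cj, map_add, map_neg, map_mul, map_div₀, map_sum, map_ofNat]
  congr 2
  exact Finset.sum_congr rfl fun k _ => by ring

omit [Fintype ι] in
theorem cj_cj (u : V ι) : cj (cj u) = u := by simp [cj]

omit [Fintype ι] in
theorem cj_add (u v : V ι) : cj (u + v) = cj u + cj v := by
  refine Prod.ext ?_ (Prod.ext ?_ ?_)
  · simp [cj]
  · funext k; simp [cj]
  · funext k; simp [cj]

omit [Fintype ι] in
theorem cj_smul (a : ℂ) (u : V ι) : cj (a • u) = conj a • cj u := by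
  refine Prod.ext ?_ (Prod.ext ?_ ?_)
  · simp [cj]
  · funext k; simp [cj]
  · funext k; simp [cj]

omit [Fintype ι] in
theorem cj_neg (u : V ι) : cj (-u) = -cj u := by
  simpa using cj_smul (-1) u

theorem B_nondeg (u : V ι) (h : ∀ y, B u y = 0) : u = 0 := by
  classical
  refine Prod.ext ?_ (Prod.ext ?_ ?_)
  · simpa [B] using h (1, 0, 0)
  · funext k
    simpa [B, Pi.single_apply] using h (0, 0, Pi.single k 1)
  · funext k
    simpa [B, Pi.single_apply] using h (0, Pi.single k 1, 0)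

theorem exists_form : ∃ Q : V ι →L[ℂ] V ι →L[ℂ] ℂ, ∀ u v, Q u v = B u v :=
  ⟨LinearMap.toContinuousLinearMap
    { toFun := fun u => Bl u
      map_add' := fun u v => ContinuousLinearMap.ext fun w => B_add' u v w
      map_smul' := fun a u => ContinuousLinearMap.ext fun w => B_smul' a u w },
    fun u v => B_comm v u⟩

theorem nsq_nonneg (p : ι → ℂ) : 0 ≤ nsq p := Finset.sum_nonneg fun _ _ => sq_nonneg _

theorem ip_self (p : ι → ℂ) : ip p p = nsq p := by
  simp only [ip, nsq, Complex.mul_conj', ofReal_sum, ofReal_pow]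

theorem norm_sq_le (p : ι → ℂ) : ‖p‖ ^ 2 ≤ nsq p := by
  have h : ‖p‖ ≤ √(nsq p) := (pi_norm_le_iff_of_nonneg (Real.sqrt_nonneg _)).2 fun k =>
    Real.le_sqrt_of_sq_le
      (Finset.single_le_sum (f := fun k => ‖p k‖ ^ 2) (fun _ _ => sq_nonneg _) (Finset.mem_univ k))
  calc ‖p‖ ^ 2 ≤ √(nsq p) ^ 2 := pow_le_pow_left₀ (norm_nonneg _) h 2
    _ = nsq p := Real.sq_sqrt (nsq_nonneg p)

theorem nsq_le (p : ι → ℂ) : nsq p ≤ Fintype.card ι * ‖p‖ ^ 2 := by
  calc nsq p ≤ ∑ _k : ι, ‖p‖ ^ 2 :=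
        Finset.sum_le_sum fun k _ => pow_le_pow_left₀ (norm_nonneg _) (norm_le_pi_norm p k) 2
    _ = _ := by rw [Finset.sum_const, Finset.card_univ, nsmul_eq_mul]

theorem ip_sq_le (p w : ι → ℂ) : ‖ip p w‖ ^ 2 ≤ nsq p * nsq w := by
  have h : ‖ip p w‖ ≤ ∑ k, ‖p k‖ * ‖w k‖ :=
    (norm_sum_le _ _).trans (le_of_eq (Finset.sum_congr rfl fun k _ => by simp))
  exact (pow_le_pow_left₀ (norm_nonneg _) h 2).trans (Finset.sum_mul_sq_le_sq_mul_sq _ _ _)

theorem eq_zero_of_nsq {p : ι → ℂ} (h : nsq p = 0) : p = 0 := by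
  have := norm_sq_le p
  rw [h] at this
  exact norm_eq_zero.1 (pow_eq_zero_iff two_ne_zero |>.1 (le_antisymm this (sq_nonneg _)))

theorem nsq_smul (a : ℂ) (p : ι → ℂ) : nsq (a • p) = ‖a‖ ^ 2 * nsq p := by
  simp only [nsq, Pi.smul_apply, smul_eq_mul, norm_mul, mul_pow, Finset.mul_sum]

theorem B_real (a : ℝ) (ξ : ι → ℂ) :
    B ((a : ℂ), fun k => conj (ξ k), ξ) ((a : ℂ), fun k => conj (ξ k), ξ) =
      ((nsq ξ - a ^ 2 : ℝ) : ℂ) := by
  have h := ip_self ξ
  have e : ∑ k, (conj (ξ k) * ξ k + ξ k * conj (ξ k)) = 2 * ip ξ ξ := by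
    rw [ip, Finset.mul_sum]
    exact Finset.sum_congr rfl fun k _ => by ring
  simp only [B]
  rw [e, h]
  push_cast
  ring

omit [Fintype ι] in
theorem real_form {x : V ι} (h : cj x = x) :
    x = ((x.1.re : ℂ), fun k => conj (x.2.2 k), x.2.2) := by
  refine Prod.ext ?_ (Prod.ext ?_ rfl)
  · exact (Complex.conj_eq_iff_re.1 (congrArg Prod.fst h)).symm
  · exact (congrArg (fun y : V ι => y.2.1) h).symm

theorem nsq_of_null {x : V ι} (h : cj x = x) (h0 : B x x = 0) : nsq x.2.2 = x.1.re ^ 2 := by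
  rw [real_form h, B_real, ofReal_eq_zero, sub_eq_zero] at h0
  exact h0

theorem mem_cone (x : V ι) : x ∈ cone ι ↔ ∃ (a : ℝ) (ξ : ι → ℂ), 0 < a ∧
    nsq ξ = a ^ 2 ∧ x = ((a : ℂ), fun k => conj (ξ k), ξ) := by
  constructor
  · rintro ⟨h1, h2, h3⟩
    exact ⟨x.1.re, x.2.2, h3, nsq_of_null h1 h2, real_form h1⟩
  · rintro ⟨a, ξ, ha, hξ, rfl⟩
    refine ⟨by simp [cj], ?_, by simpa using ha⟩
    rw [B_real, hξ, sub_self, ofReal_zero]

theorem cone_ne {x : V ι} (hx : x ∈ cone ι) : x ≠ 0 := by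
  rintro rfl
  simpa using hx.2.2

theorem cone_norm {x : V ι} (hx : x ∈ cone ι) : ‖x‖ = x.1.re := by
  obtain ⟨a, ξ, ha, hξ, rfl⟩ := (mem_cone x).1 hx
  have h1 : ‖ξ‖ ≤ a := le_of_sq_le_sq (hξ ▸ norm_sq_le ξ) ha.le
  have h2 : ‖fun k => conj (ξ k)‖ ≤ a := (pi_norm_le_iff_of_nonneg ha.le).2 fun k => by
    rw [Complex.norm_conj]; exact (norm_le_pi_norm ξ k).trans h1
  simp only [Prod.norm_def, Complex.norm_real, Real.norm_eq_abs, abs_of_pos ha, ofReal_re]
  exact max_eq_left (max_le h2 h1)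

theorem cone_fst {x : V ι} (hx : x ∈ cone ι) : x.1 = (x.1.re : ℂ) :=
  congrArg Prod.fst (real_form hx.1)

theorem cone_smul {x : V ι} (hx : x ∈ cone ι) {l : ℝ} (hl : 0 < l) : (l : ℂ) • x ∈ cone ι := by
  refine ⟨by rw [cj_smul, hx.1, conj_ofReal], by rw [B_smul, B_smul', hx.2.1]; simp, ?_⟩
  simpa using mul_pos hl hx.2.2

theorem cone_scalar {x : V ι} (hx : x ∈ cone ι) {a : ℂ} (ha : a • x ∈ cone ι) :
    ∃ l : ℝ, 0 < l ∧ a = l := by
  refine ⟨(a • x).1.re / x.1.re, div_pos ha.2.2 hx.2.2, ?_⟩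
  have h0 : (x.1.re : ℂ) ≠ 0 := ofReal_ne_zero.2 hx.2.2.ne'
  rw [ofReal_div, ← cone_fst ha, eq_div_iff h0, ← cone_fst hx]
  rfl

theorem cone_tri {y : V ι} (h : cj y = y) (h0 : B y y = 0) :
    y = 0 ∨ y ∈ cone ι ∨ -y ∈ cone ι := by
  rcases lt_trichotomy y.1.re 0 with hy | hy | hy
  · refine Or.inr (Or.inr ⟨by rw [cj_neg, h], ?_, by simpa using hy⟩)
    rw [B_neg, B_comm, B_neg, h0]; simp
  · left
    have h1 := nsq_of_null h h0
    rw [hy, zero_pow two_ne_zero] at h1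
    rw [real_form h, eq_zero_of_nsq h1, hy]
    refine Prod.ext (by simp) (Prod.ext ?_ rfl)
    funext k; simp
  · exact Or.inr (Or.inl ⟨h, h0, hy⟩)

theorem cone_compact : IsCompact (cone ι ∩ {x | x.1 = 1}) := by
  refine Metric.isCompact_of_isClosed_isBounded ?_ ?_
  · have e : cone ι ∩ {x | x.1 = 1} = {x : V ι | cj x = x} ∩ ({x | B x x = 0} ∩ {x | x.1 = 1}) := by
      ext x
      constructor
      · rintro ⟨⟨h1, h2, -⟩, h4⟩; exact ⟨h1, h2, h4⟩
      · rintro ⟨h1, h2, h4⟩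
        refine ⟨⟨h1, h2, ?_⟩, h4⟩
        rw [show x.1 = 1 from h4]; simp
    rw [e]
    refine (isClosed_eq ?_ continuous_id).inter
      ((isClosed_eq ?_ continuous_const).inter (isClosed_eq continuous_fst continuous_const))
    · unfold cj; fun_prop
    · unfold B; fun_prop
  · refine (Metric.isBounded_closedBall (x := (0 : V ι)) (r := 1)).subset fun x hx => ?_
    rw [mem_closedBall_zero_iff, cone_norm hx.1, show x.1 = 1 from hx.2]; simp

theorem cone_nonempty (h : Nonempty ι) : (cone ι).Nonempty := by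
  have h0 : (0 : ℝ) < Fintype.card ι := by exact_mod_cast Fintype.card_pos
  refine ⟨_, (mem_cone _).2 ⟨√(Fintype.card ι), fun _ => 1, Real.sqrt_pos.2 h0, ?_, rfl⟩⟩
  rw [Real.sq_sqrt h0.le]; simp [nsq]

theorem orth_mul {M M' : EV ι} (h : Orth M) (h' : Orth M') : Orth (M * M') := fun v w =>
  (h _ _).trans (h' v w)

theorem orth_unit {M : EV ι} (h : Orth M) : IsUnit M := by
  have hi : Function.Injective M := (injective_iff_map_eq_zero M).2 fun v hv =>
    B_nondeg v fun y => by rw [← h, hv, B_zero]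
  exact ContinuousLinearMap.isUnit_iff_bijective.2
    ⟨hi, LinearMap.injective_iff_surjective (f := (M : V ι →ₗ[ℂ] V ι)) |>.1 hi⟩

theorem apply_inv {M : EV ι} (h : IsUnit M) (v : V ι) : M (Ring.inverse M v) = v :=
  congrArg (fun N : EV ι => N v) (Ring.mul_inverse_cancel M h)

theorem inv_apply {M : EV ι} (h : IsUnit M) (v : V ι) : Ring.inverse M (M v) = v :=
  congrArg (fun N : EV ι => N v) (Ring.inverse_mul_cancel M h)

theorem orth_inv {M : EV ι} (h : Orth M) : Orth (Ring.inverse M) := fun v w => by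
  rw [← h, apply_inv (orth_unit h), apply_inv (orth_unit h)]

theorem op1_inv {G : EV ι} (h : Op1 G) : Op1 (Ring.inverse G) := by
  have hu := orth_unit h.orth
  have hr : ∀ v, Ring.inverse G (cj v) = cj (Ring.inverse G v) := fun v => by
    conv_lhs => rw [← apply_inv hu v, ← h.real, inv_apply hu]
  refine ⟨orth_inv h.orth, hr, fun x hx => ?_⟩
  rcases cone_tri (y := Ring.inverse G x) (by rw [← hr, hx.1])
    (by rw [orth_inv h.orth, hx.2.1]) with h1 | h1 | h1
  · have := apply_inv hu x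
    rw [h1, map_zero] at this
    exact absurd this.symm (cone_ne hx)
  · exact h1
  · have h2 := (h.fut _ h1).2.2
    rw [map_neg, apply_inv hu] at h2
    have h3 := hx.2.2
    simp only [Prod.fst_neg, neg_re] at h2
    linarith

theorem dg_apply (s : ℂ) (v : V ι) : dg s v = (v.1, s • v.2.1, s⁻¹ • v.2.2) := by
  simp [dg, Q0, Qp, Qm]

theorem dg_orth {s : ℂ} (hs : s ≠ 0) : Orth (dg s : EV ι) := fun v w => by
  simp only [dg_apply, B, Pi.smul_apply, smul_eq_mul]
  congr 2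
  exact Finset.sum_congr rfl fun k _ => by field_simp

theorem conj_unit {s : ℂ} (hs : ‖s‖ = 1) : conj s = s⁻¹ := (Complex.inv_eq_conj hs).symm

theorem dg_op1 {s : ℂ} (hs : ‖s‖ = 1) : Op1 (dg s : EV ι) := by
  have h0 : s ≠ 0 := by rintro rfl; simp at hs
  have hr : ∀ v : V ι, dg s (cj v) = cj (dg s v) := fun v => by
    simp only [dg_apply, cj]
    refine Prod.ext rfl (Prod.ext ?_ ?_) <;> funext k <;> simp [conj_unit hs]
  refine ⟨dg_orth h0, hr, fun x hx => ⟨by rw [← hr, hx.1], by rw [dg_orth h0, hx.2.1], ?_⟩⟩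
  rw [dg_apply]; exact hx.2.2

section axis

variable {c S : ℝ} {w : ι → ℂ}

theorem B_axis (h : Ax c S w) (a b d a' b' d' : ℂ) :
    B (a, fun k => b * conj (w k), fun k => d * w k) (a', fun k => b' * conj (w k),
      fun k => d' * w k) = -(a * a') + (b * d' + d * b') / 2 := by
  have h1 : ip w w = 1 := by rw [ip_self, h.unit, ofReal_one]
  have e : ∑ k, (b * conj (w k) * (d' * w k) + d * w k * (b' * conj (w k))) =
      (b * d' + d * b') * ip w w := by
    rw [ip, Finset.mul_sum]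
    exact Finset.sum_congr rfl fun k _ => by ring
  simp only [B]
  rw [e, h1, mul_one]

theorem hypC (h : Ax c S w) : (c : ℂ) ^ 2 - (S : ℂ) ^ 2 = 1 := by exact_mod_cast h.hyp

theorem B_pp (h : Ax c S w) : B (ep c S w) (ep c S w) = 0 := by
  rw [ep, B_axis h]; linear_combination hypC h

theorem B_mm (h : Ax c S w) : B (em c S w) (em c S w) = 0 := by
  rw [H11.em, B_axis h]; linear_combination hypC h

theorem B_pm (h : Ax c S w) : B (ep c S w) (em c S w) = 2 := by
  rw [ep, H11.em, B_axis h]; linear_combination hypC h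

theorem B_mp (h : Ax c S w) : B (em c S w) (ep c S w) = 2 := by rw [B_comm, B_pm h]

theorem B_cc (h : Ax c S w) : B (ctr c S w) (ctr c S w) = -1 := by
  rw [ctr, B_axis h]; linear_combination -hypC h

theorem B_cp (h : Ax c S w) : B (ctr c S w) (ep c S w) = 0 := by
  rw [ctr, ep, B_axis h]; ring

theorem B_cm (h : Ax c S w) : B (ctr c S w) (em c S w) = 0 := by
  rw [ctr, H11.em, B_axis h]; ring

omit [Fintype ι] in
theorem cj_ep : cj (ep c S w) = em c S w := by simp [cj, ep, H11.em]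

omit [Fintype ι] in
theorem cj_em : cj (em c S w) = ep c S w := by rw [← cj_ep, cj_cj]

omit [Fintype ι] in
theorem cj_ctr : cj (ctr c S w) = ctr c S w := by simp [cj, ctr]

theorem Pp_apply (v : V ι) : Pp c S w v = (B v (em c S w) / 2) • ep c S w := by
  change ((1 / 2 : ℂ) * B v (em c S w)) • ep c S w = _
  congr 1; ring

theorem Pm_apply (v : V ι) : Pm c S w v = (B v (ep c S w) / 2) • em c S w := by
  change ((1 / 2 : ℂ) * B v (ep c S w)) • em c S w = _
  congr 1; ring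

theorem B_gen (v : V ι) (a b d : ℂ) : B v (a, fun k => b * conj (w k), fun k => d * w k) =
    -(v.1 * a) + (d * ∑ k, v.2.1 k * w k + b * ip v.2.2 w) / 2 := by
  simp only [B, ip, Finset.mul_sum, ← Finset.sum_add_distrib]
  congr 2
  exact Finset.sum_congr rfl fun k _ => by ring

theorem Ppp (h : Ax c S w) : Pp c S w * Pp c S w = Pp c S w := ContinuousLinearMap.ext fun v => by
  rw [mul_apply_eq_comp, Pp_apply (Pp c S w v), Pp_apply, B_smul, B_pm h]
  congr 1; ring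

theorem Pmm (h : Ax c S w) : Pm c S w * Pm c S w = Pm c S w := ContinuousLinearMap.ext fun v => by
  rw [mul_apply_eq_comp, Pm_apply (Pm c S w v), Pm_apply, B_smul, B_mp h]
  congr 1; ring

theorem Ppm (h : Ax c S w) : Pp c S w * Pm c S w = 0 := ContinuousLinearMap.ext fun v => by
  rw [mul_apply_eq_comp, Pp_apply, Pm_apply, B_smul, B_mm h]; simp

theorem Pmp (h : Ax c S w) : Pm c S w * Pp c S w = 0 := ContinuousLinearMap.ext fun v => by
  rw [mul_apply_eq_comp, Pm_apply, Pp_apply, B_smul, B_pp h]; simp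

theorem Pp0 (h : Ax c S w) : Pp c S w * P0 c S w = 0 := by
  simp [P0, mul_sub, Ppp h, Ppm h]

theorem P0p (h : Ax c S w) : P0 c S w * Pp c S w = 0 := by
  simp [P0, sub_mul, Ppp h, Pmp h]

theorem Pm0 (h : Ax c S w) : Pm c S w * P0 c S w = 0 := by
  simp [P0, mul_sub, Pmm h, Pmp h]

theorem P0m (h : Ax c S w) : P0 c S w * Pm c S w = 0 := by
  simp [P0, sub_mul, Pmm h, Ppm h]

theorem P00 (h : Ax c S w) : P0 c S w * P0 c S w = P0 c S w := by
  nth_rewrite 2 [P0]
  rw [mul_sub, mul_sub, mul_one, P0p h, P0m h, sub_zero, sub_zero]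

theorem rot_eq (s : ℂ) : rot c S w s = 1 + (s - 1) • Pp c S w + (s⁻¹ - 1) • Pm c S w :=
  ContinuousLinearMap.ext fun v => by
    change v - Pp c S w v - Pm c S w v + s • Pp c S w v + s⁻¹ • Pm c S w v =
      v + (s - 1) • Pp c S w v + (s⁻¹ - 1) • Pm c S w v
    rw [sub_smul, sub_smul, one_smul, one_smul]; abel

theorem rot_apply (s : ℂ) (v : V ι) : rot c S w s v =
    v + ((s - 1) * (B v (em c S w) / 2)) • ep c S w +
      ((s⁻¹ - 1) * (B v (ep c S w) / 2)) • em c S w := by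
  rw [rot_eq, mul_smul, mul_smul, ← Pp_apply, ← Pm_apply]; rfl

theorem rot_orth (h : Ax c S w) {s : ℂ} (hs : s ≠ 0) : Orth (rot c S w s) := fun v u => by
  simp only [rot_apply, B_add, B_add', B_smul, B_smul', B_pp h, B_mm h, B_pm h, B_mp h,
    B_comm (ep c S w) u, B_comm (em c S w) u]
  field_simp
  ring

theorem B_ctr_neg (h : Ax c S w) {x : V ι} (hx : x ∈ cone ι) : (B x (ctr c S w)).re < 0 := by
  obtain ⟨a, ξ, ha, hξ, rfl⟩ := (mem_cone x).1 hx
  have e : ∑ k, conj (ξ k) * w k = conj (ip ξ w) := by simp [ip]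
  have h1 : ‖ip ξ w‖ ≤ a := le_of_sq_le_sq (by simpa [hξ, h.unit] using ip_sq_le ξ w) ha.le
  have h2 := (Complex.re_le_norm _).trans h1
  have h3 : S < c := lt_of_pow_lt_pow_left₀ 2 h.hc.le (by linarith [h.hyp])
  rw [ctr, B_gen, e]
  simp only [add_re, neg_re, mul_re, ofReal_re, ofReal_im, conj_re, conj_im, div_ofNat_re]
  nlinarith [h.hS, mul_le_mul_of_nonneg_left h2 h.hS]

theorem rot_op1 (h : Ax c S w) {s : ℂ} (hs : ‖s‖ = 1) : Op1 (rot c S w s) := by
  have h0 : s ≠ 0 := by rintro rfl; simp at hs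
  have hr : ∀ v : V ι, rot c S w s (cj v) = cj (rot c S w s v) := fun v => by
    have e1 : B (cj v) (em c S w) = conj (B v (ep c S w)) := by rw [← cj_ep, B_cj]
    have e2 : B (cj v) (ep c S w) = conj (B v (em c S w)) := by rw [← cj_em, B_cj]
    simp only [rot_apply, cj_add, cj_smul, cj_ep, cj_em, e1, e2, map_mul, map_sub, map_one,
      map_div₀, map_inv₀, map_ofNat, conj_unit hs, inv_inv]
    abel
  refine ⟨rot_orth h h0, hr, fun x hx => ?_⟩
  have e : B (rot c S w s x) (ctr c S w) = B x (ctr c S w) := by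
    rw [rot_apply, B_add, B_add, B_smul, B_smul, B_comm (ep c S w), B_comm (em c S w), B_cp h,
      B_cm h]
    ring
  have h1 := B_ctr_neg h hx
  rcases cone_tri (y := rot c S w s x) (by rw [← hr, hx.1])
    (by rw [rot_orth h h0, hx.2.1]) with h2 | h2 | h2
  · rw [← e, h2, B_zero] at h1; simp at h1
  · exact h2
  · have h3 := B_ctr_neg h h2
    rw [B_neg, e, neg_re] at h3
    linarith

theorem rot_mul (h : Ax c S w) (s s' : ℂ) :
    rot c S w (s * s') = rot c S w s * rot c S w s' := ContinuousLinearMap.ext fun v => by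
  rw [mul_apply_eq_comp, rot_apply s (rot c S w s' v)]
  simp only [rot_apply, B_add, B_smul, B_pp h, B_mm h, B_pm h, B_mp h, mul_inv]
  module

theorem norm_axis (h : Ax c S w) {b d : ℝ} (hb : |b| ≤ c + 1) (hd : |d| ≤ c + 1) :
    ‖(((S : ℂ), fun k => (b : ℂ) * conj (w k), fun k => (d : ℂ) * w k) : V ι)‖ ≤ c + 1 := by
  have hc : 0 ≤ c + 1 := by linarith [h.hc]
  have h3 : S < c := lt_of_pow_lt_pow_left₀ 2 h.hc.le (by linarith [h.hyp])
  have h1 : ‖w‖ ≤ 1 := le_of_sq_le_sq (by simpa [h.unit] using norm_sq_le w) zero_le_one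
  have h2 : ∀ k, ‖w k‖ ≤ 1 := fun k => (norm_le_pi_norm w k).trans h1
  refine max_le ?_ (max_le ((pi_norm_le_iff_of_nonneg hc).2 fun k => ?_)
    ((pi_norm_le_iff_of_nonneg hc).2 fun k => ?_))
  · rw [Complex.norm_real, Real.norm_eq_abs, abs_of_nonneg h.hS]; linarith
  · rw [norm_mul, Complex.norm_conj, Complex.norm_real, Real.norm_eq_abs]
    exact (mul_le_of_le_one_right (abs_nonneg _) (h2 k)).trans hb
  · rw [norm_mul, Complex.norm_real, Real.norm_eq_abs]
    exact (mul_le_of_le_one_right (abs_nonneg _) (h2 k)).trans hd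

theorem norm_ep (h : Ax c S w) : ‖ep c S w‖ ≤ c + 1 := by
  have := norm_axis h (b := c + 1) (d := c - 1) (by rw [abs_le]; constructor <;> linarith [h.hc])
    (by rw [abs_le]; constructor <;> linarith [h.hc])
  simpa only [ep, ofReal_add, ofReal_sub, ofReal_one] using this

theorem norm_em (h : Ax c S w) : ‖em c S w‖ ≤ c + 1 := by
  have := norm_axis h (b := c - 1) (d := c + 1) (by rw [abs_le]; constructor <;> linarith [h.hc])
    (by rw [abs_le]; constructor <;> linarith [h.hc])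
  simpa only [H11.em, ofReal_add, ofReal_sub, ofReal_one] using this

end axis

theorem norm_rank_one {Q : V ι →L[ℂ] V ι →L[ℂ] ℂ} (hQ : ∀ u v, Q u v = B u v) {P : EV ι}
    {a b : V ι} {K : ℝ} (hP : ∀ v, P v = (B v a / 2) • b) (ha : ‖a‖ ≤ K) (hb : ‖b‖ ≤ K) :
    ‖P‖ ≤ ‖Q‖ * K * K := by
  have hK : 0 ≤ K := (norm_nonneg _).trans ha
  refine ContinuousLinearMap.opNorm_le_bound _ (by positivity) fun v => ?_
  have h1 : ‖B v a‖ ≤ ‖Q‖ * ‖v‖ * K := by
    rw [← hQ]
    exact (Q.le_opNorm₂ v a).trans (mul_le_mul_of_nonneg_left ha (by positivity))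
  have h2 : ‖B v a / 2‖ ≤ ‖B v a‖ := by
    rw [norm_div, Complex.norm_ofNat]; linarith [norm_nonneg (B v a)]
  rw [hP, norm_smul]
  calc ‖B v a / 2‖ * ‖b‖ ≤ ‖Q‖ * ‖v‖ * K * K :=
        mul_le_mul (h2.trans h1) hb (norm_nonneg _) (by positivity)
    _ = _ := by ring

theorem exists_bound (c₀ : ℝ) : ∃ C : ℝ, 0 ≤ C ∧ ∀ (c S : ℝ) (w : ι → ℂ), Ax c S w →
    c ≤ c₀ → ‖Pp c S w‖ ≤ C ∧ ‖Pm c S w‖ ≤ C ∧ ‖P0 c S w‖ ≤ C := by
  obtain ⟨Q, hQ⟩ := exists_form (ι := ι)
  have h0 : 0 ≤ ‖Q‖ * (c₀ + 1) * (c₀ + 1) := by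
    rw [mul_assoc]; exact mul_nonneg Q.opNorm_nonneg (mul_self_nonneg _)
  refine ⟨1 + 2 * (‖Q‖ * (c₀ + 1) * (c₀ + 1)), by linarith, fun c S w h hc => ?_⟩
  have e1 : ‖ep c S w‖ ≤ c₀ + 1 := (norm_ep h).trans (by linarith)
  have e2 : ‖em c S w‖ ≤ c₀ + 1 := (norm_em h).trans (by linarith)
  have h1 := norm_rank_one hQ Pp_apply e2 e1
  have h2 := norm_rank_one hQ Pm_apply e1 e2
  refine ⟨by linarith, by linarith, ?_⟩
  have h3 : ‖(1 : EV ι)‖ ≤ 1 := ContinuousLinearMap.norm_id_le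
  have h4 := norm_sub_le (1 - Pp c S w) (Pm c S w)
  have h5 := norm_sub_le (1 : EV ι) (Pp c S w)
  rw [P0]
  linarith

theorem sgr : SGR where
  bil _ _ u v w a := ⟨B_comm u v, rfl, B_add u v w, B_smul a u w, B_cj u v, cj_cj u, cj_add u v,
    cj_smul a u, B_nondeg u⟩
  form _ _ := exists_form
  mem _ _ := mem_cone
  cn _ _ _ hx := ⟨cone_ne hx, cone_norm hx, cone_fst hx, fun _ hl => cone_smul hx hl,
    fun _ ha => cone_scalar hx ha⟩
  cpt _ _ := ⟨cone_compact, cone_nonempty⟩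
  op _ _ := ⟨⟨fun _ _ => rfl, fun _ => rfl, fun _ hx => hx⟩,
    fun G G' h h' => ⟨orth_mul h.orth h'.orth,
      fun v => (congrArg G (h'.real v)).trans (h.real _), fun x hx => h.fut _ (h'.fut x hx)⟩,
    fun G h => ⟨_, op1_inv h, Ring.mul_inverse_cancel G (orth_unit h.orth),
      Ring.inverse_mul_cancel G (orth_unit h.orth)⟩,
    fun _ _ => orth_mul, fun _ h => ⟨orth_unit h, orth_inv h⟩⟩
  blk _ _ v s := ⟨rfl, rfl, rfl, dg_apply s v⟩
  dgp _ _ := ⟨ContinuousLinearMap.ext fun v => by simp [dg_apply], fun s hs => ⟨dg_orth hs, dg_op1,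
    fun s' _ => ContinuousLinearMap.ext fun v => by
      simp only [mul_apply_eq_comp, dg_apply, smul_smul, mul_inv]⟩⟩
  vec _ _ _ _ _ h := ⟨B_pp h, B_mm h, B_pm h, cj_ep, cj_ctr, B_cc h, B_cp h, B_cm h,
    fun v => ⟨Pp_apply v, Pm_apply v, B_gen v _ _ _, B_gen v _ _ _⟩⟩
  prj _ _ _ _ _ h := ⟨Ppp h, Pmm h, P00 h, Ppm h, Pmp h, Pp0 h, P0p h, Pm0 h, P0m h⟩
  rt _ _ _ _ _ h := ⟨ContinuousLinearMap.ext fun v => by simp [rot_apply], fun s hs => ⟨rot_orth h hs, rot_op1 h,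
    fun s' _ => rot_mul h s s', rot_eq s⟩⟩
  bd _ _ := exists_bound
  nrm _ _ p w := ⟨nsq_nonneg p, norm_sq_le p, nsq_le p, ip_sq_le p w, eq_zero_of_nsq, ip_self p,
    fun a => nsq_smul a p⟩

end

end Pool.Agent.MP_fcd29e_an.H23
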